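import Pool.Agent.ZES.StmtsC

set_option autoImplicit false

/-! # Squad ZES, row BAD (a bad sequence) -/

namespace Pool.Agent.ZES.H88

open scoped BigOperators

/-- a vector between two vectors with a given sum -/
lemma between {M : ℕ} (a b : Fin M → ℕ) (hab : a ≤ b) :
    ∀ k : ℕ, ∑ i, a i + k ≤ ∑ i, b i → ∃ u : Fin M → ℕ, a ≤ u ∧ u ≤ b ∧
      ∑ i, u i = ∑ i, a i + k := by
  intro k
  induction k with
  | zero => intro _; exact ⟨a, le_rfl, hab, rfl⟩
  | succ k ih =>
    intro hk
    obtain ⟨u, h1, h2, h3⟩ := ih (by omega)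
    have h4 : ∃ i, u i < b i := by
      by_contra hcon
      push Not at hcon
      have h5 : ∑ i, b i ≤ ∑ i, u i := Finset.sum_le_sum (fun i _ => hcon i)
      omega
    obtain ⟨i, hi⟩ := h4
    refine ⟨Function.update u i (u i + 1), ?_, ?_, ?_⟩
    · intro l
      by_cases hl : l = i
      · subst hl; rw [Function.update_self]; exact Nat.le_succ_of_le (h1 l)
      · rw [Function.update_of_ne hl]; exact h1 l
    · intro l
      by_cases hl : l = i
      · subst hl; rw [Function.update_self]; exact hi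
      · rw [Function.update_of_ne hl]; exact h2 l
    · rw [Finset.sum_update_of_mem (Finset.mem_univ i)]
      rw [← Finset.add_sum_erase Finset.univ u (Finset.mem_univ i)] at h3
      rw [Finset.sdiff_singleton_eq_erase]
      omega

/-- the sum of the leading exponent of a form -/
lemma deg_sum {M : ℕ} {K : Type} [Field K] {p : MvPolynomial (Fin M) K} {m : ℕ}
    (hp : p ∈ MvPolynomial.homogeneousSubmodule (Fin M) K m) (h0 : p ≠ 0) :
    ∑ i, (MonomialOrder.lex (σ := Fin M)).degree p i = m := by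
  have h1 : MvPolynomial.coeff ((MonomialOrder.lex (σ := Fin M)).degree p) p ≠ 0 :=
    (MonomialOrder.lex (σ := Fin M)).coeff_degree_ne_zero_iff.mpr h0
  have h2 := hp h1
  have h3 : ((MonomialOrder.lex (σ := Fin M)).degree p).degree = m := by
    rw [Finsupp.degree_eq_weight_one]
    exact h2
  rw [Finsupp.degree_eq_sum] at h3
  exact h3

/-- **Row BAD.** -/
theorem bad (LSE : LseStmt) (UMU : UmuStmt) : BadStmt := by
  classical
  intro M J K R _ _ _ v I hJ
  obtain ⟨hmul, -⟩ := UMU M K R v I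
  have h1 : ∀ j ≤ J, ∃ p ∈ UU (K := K) v I (2 * 2 ^ j), p ≠ 0 ∧
      ∀ q ∈ UU v I (2 ^ j) * MvPolynomial.homogeneousSubmodule (Fin M) K (2 ^ j), q ≠ 0 →
        (MonomialOrder.lex (σ := Fin M)).degree q ≠ (MonomialOrder.lex (σ := Fin M)).degree p := by
    intro j hj
    by_contra hcon
    push Not at hcon
    apply hJ j hj
    refine LSE M K _ _ ?_ ?_
    · have h2 := hmul (2 ^ j) (2 ^ j)
      rw [← two_mul] at h2
      exact h2
    · intro p hp hp0
      obtain ⟨q, hq, hq0, hqd⟩ := hcon p hp hp0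
      exact ⟨q, hq, hq0, hqd⟩
  choose! p hpU hp0 hpd using h1
  refine ⟨fun j i => (MonomialOrder.lex (σ := Fin M)).degree (p j) i, ?_, ?_⟩
  · intro j hj
    exact deg_sum (hpU j hj).1 (hp0 j hj)
  · intro i j hij hj hle
    have hi : i ≤ J := le_trans hij.le hj
    have hsi := deg_sum (hpU i hi).1 (hp0 i hi)
    have hsj := deg_sum (hpU j hj).1 (hp0 j hj)
    have hpow : 2 * 2 ^ i ≤ 2 ^ j := by
      rw [← pow_succ']
      exact Nat.pow_le_pow_right (by norm_num) hij
    obtain ⟨u, hu1, hu2, hu3⟩ := between _ _ hle (2 ^ j - 2 * 2 ^ i) (by rw [hsi, hsj]; omega)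
    rw [hsi] at hu3
    obtain ⟨U, hU⟩ : ∃ U : Fin M →₀ ℕ, ∀ l, U l = u l := ⟨Finsupp.equivFunOnFinite.symm u,
      fun l => rfl⟩
    obtain ⟨a, ha⟩ : ∃ a : Fin M →₀ ℕ, a = (MonomialOrder.lex (σ := Fin M)).degree (p i) :=
      ⟨_, rfl⟩
    obtain ⟨b, hb⟩ : ∃ b : Fin M →₀ ℕ, b = (MonomialOrder.lex (σ := Fin M)).degree (p j) :=
      ⟨_, rfl⟩
    rw [← ha] at hsi
    rw [← hb] at hsj
    have hUs : ∑ l, U l = 2 ^ j := by
      have h2 : ∑ l, U l = ∑ l, u l := Finset.sum_congr rfl (fun l _ => hU l)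
      rw [h2, hu3]
      omega
    have hau : ∀ l, a l ≤ U l := by intro l; rw [ha, hU]; exact hu1 l
    have hub : ∀ l, U l ≤ b l := by intro l; rw [hb, hU]; exact hu2 l
    have hd1 : (U - a).degree = 2 ^ j - 2 * 2 ^ i := by
      rw [Finsupp.degree_eq_sum]
      have h2 : ∑ l, (U - a) l + ∑ l, a l = ∑ l, U l := by
        rw [← Finset.sum_add_distrib]
        refine Finset.sum_congr rfl fun l _ => ?_
        rw [Finsupp.tsub_apply]
        have := hau l
        omega
      omega
    have hd2 : (b - U).degree = 2 ^ j := by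
      rw [Finsupp.degree_eq_sum]
      have h2 : ∑ l, (b - U) l + ∑ l, U l = ∑ l, b l := by
        rw [← Finset.sum_add_distrib]
        refine Finset.sum_congr rfl fun l _ => ?_
        rw [Finsupp.tsub_apply]
        have := hub l
        omega
      omega
    have hm1 : MvPolynomial.monomial (U - a) (1 : K) ≠ 0 := by
      rw [Ne, MvPolynomial.monomial_eq_zero]; exact one_ne_zero
    have hm2 : MvPolynomial.monomial (b - U) (1 : K) ≠ 0 := by
      rw [Ne, MvPolynomial.monomial_eq_zero]; exact one_ne_zero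
    have hq1 : p i * MvPolynomial.monomial (U - a) (1 : K) ∈ UU (K := K) v I (2 ^ j) := by
      have h2 := hmul (2 * 2 ^ i) (2 ^ j - 2 * 2 ^ i)
      have h3 : 2 * 2 ^ i + (2 ^ j - 2 * 2 ^ i) = 2 ^ j := by omega
      rw [h3] at h2
      exact h2 (Submodule.mul_mem_mul (hpU i hi) (MvPolynomial.isHomogeneous_monomial 1 hd1))
    have hq2 : p i * MvPolynomial.monomial (U - a) (1 : K) *
        MvPolynomial.monomial (b - U) (1 : K) ∈
        UU v I (2 ^ j) * MvPolynomial.homogeneousSubmodule (Fin M) K (2 ^ j) :=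
      Submodule.mul_mem_mul hq1 (MvPolynomial.isHomogeneous_monomial 1 hd2)
    have hne1 : p i * MvPolynomial.monomial (U - a) (1 : K) ≠ 0 := mul_ne_zero (hp0 i hi) hm1
    have hne2 := mul_ne_zero hne1 hm2
    apply hpd j hj _ hq2 hne2
    rw [MonomialOrder.degree_mul hne1 hm2, MonomialOrder.degree_mul (hp0 i hi) hm1,
      MonomialOrder.degree_monomial, MonomialOrder.degree_monomial, if_neg one_ne_zero,
      if_neg one_ne_zero, ← ha, ← hb]
    ext l
    rw [Finsupp.add_apply, Finsupp.add_apply, Finsupp.tsub_apply, Finsupp.tsub_apply]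
    have h2 := hau l
    have h3 := hub l
    omega

end Pool.Agent.ZES.H88
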