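import Pool.Agent.ZES.StmtsB

set_option autoImplicit false

/-! # Squad ZES, row HFA (Hefer decomposition, one function) -/

namespace Pool.Agent.ZES.H88

open scoped BigOperators InnerProductSpace

/-- **Row HFA.** -/
theorem hfa (DFD : DfdStmt) (PAR : ParStmt) : HfaStmt := by
  intro V _ _ _ W f hf hW
  have hD : ∀ v : V, Differentiable ℂ (fun y => fderiv ℂ f y v) := fun v => DFD V f hf v
  have hc : ∀ v x : V, Continuous (fun t : ℝ =>
      fderiv ℂ f (W.starProjection x + (t : ℂ) • Wᗮ.starProjection x) v) := by
    intro v x
    exact (hD v).continuous.comp (by fun_prop)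
  have hi : ∀ v x : V, IntervalIntegrable (fun t : ℝ =>
      fderiv ℂ f (W.starProjection x + (t : ℂ) • Wᗮ.starProjection x) v)
      MeasureTheory.volume 0 1 := fun v x => (hc v x).intervalIntegrable _ _
  refine ⟨?_, ?_, ?_, ?_⟩
  · intro v
    exact PAR V (fun y => fderiv ℂ f y v) (hD v) W.starProjection Wᗮ.starProjection
  · intro u v x c
    constructor
    · unfold hh
      rw [← intervalIntegral.integral_add (hi u x) (hi v x)]
      refine intervalIntegral.integral_congr fun t _ => ?_
      exact map_add _ _ _
    · unfold hh
      rw [← intervalIntegral.integral_const_mul]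
      refine intervalIntegral.integral_congr fun t _ => ?_
      simp only [map_smul, smul_eq_mul]
  · intro v
    unfold hh
    simp only [map_zero, smul_zero, add_zero, intervalIntegral.integral_const, sub_zero, one_smul]
  · intro x
    unfold hh
    have h1 : ∀ t : ℝ, HasDerivAt
        (fun s : ℝ => f (W.starProjection x + (s : ℂ) • Wᗮ.starProjection x))
        (fderiv ℂ f (W.starProjection x + (t : ℂ) • Wᗮ.starProjection x)
          (Wᗮ.starProjection x)) t := by
      intro t
      have h2 : HasDerivAt (fun ζ : ℂ => W.starProjection x + ζ • Wᗮ.starProjection x)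
          (Wᗮ.starProjection x) (t : ℂ) := by
        have h3 := ((hasDerivAt_id (t : ℂ)).smul_const (Wᗮ.starProjection x)).const_add
          (W.starProjection x)
        simpa using h3
      have h4 := (hf (W.starProjection x + (t : ℂ) • Wᗮ.starProjection x)).hasFDerivAt
      exact (h4.comp_hasDerivAt (t : ℂ) h2).comp_ofReal
    rw [intervalIntegral.integral_eq_sub_of_hasDerivAt (fun t _ => h1 t)
      (hi (Wᗮ.starProjection x) x)]
    have h2 : W.starProjection x + Wᗮ.starProjection x = x :=
      Submodule.starProjection_add_starProjection_orthogonal x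
    rw [Complex.ofReal_one, Complex.ofReal_zero, one_smul, zero_smul, add_zero, h2,
      hW _ (Submodule.starProjection_apply_mem W x), sub_zero]

end Pool.Agent.ZES.H88
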