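import Pool.Agent.ZES.StmtsF

set_option autoImplicit false

/-! # Squad ZES, row SPN (the standard theta functions span) -/

namespace Pool.Agent.ZES.H88

open scoped BigOperators
open Pool.Agent.THS Pool.Agent.ZES

/-- **Row SPN.** -/
theorem spn (FSH : FshStmt) (QPR : QprStmt) (DIM : DimStmt) (VTF : VtfStmt) : SpnStmt := by
  classical
  intro g τ hτ n hn F hF
  obtain ⟨v, hv⟩ : ∃ v : (Fin g → Fin n) → (Fin g → ℂ) → ℂ,
      v = fun j => vt τ n (fun i => ((j i).val : ℤ)) := ⟨_, rfl⟩
  have hvR : ∀ j, v j ∈ RR τ n := by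
    intro j; rw [hv]; exact (VTF g τ hτ n hn _).1
  have hPE : ∀ G ∈ RR τ n, PE G := fun G hG => (QPR g τ n G hG).1
  -- linearity of the coefficients
  have hlin : ∀ (d : (Fin g → Fin n) → ℂ) (k : Fin g → ℤ) (s : Finset (Fin g → Fin n)),
      (fun x => F x + ∑ j ∈ s, d j * v j x) ∈ RR τ n ∧
      fc (fun x => F x + ∑ j ∈ s, d j * v j x) k = fc F k + ∑ j ∈ s, d j * fc (v j) k := by
    intro d k s
    induction s using Finset.induction_on with
    | empty =>
      simp only [Finset.sum_empty, add_zero]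
      exact ⟨hF, trivial⟩
    | insert a s ha ih =>
      have h1 : (fun x => F x + ∑ j ∈ insert a s, d j * v j x) =
          fun x => (fun x => F x + ∑ j ∈ s, d j * v j x) x + d a * v a x := by
        funext x
        rw [Finset.sum_insert ha]
        ring
      constructor
      · rw [h1]
        exact (RR τ n).add_mem ih.1 ((RR τ n).smul_mem (d a) (hvR a))
      · rw [h1, (FSH g _ (hPE _ ih.1) k).2.2 (v a) (hPE _ (hvR a)) (d a), ih.2,
          Finset.sum_insert ha]
        ring
  -- the coefficients of the standard functions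
  have hself : ∀ j : Fin g → Fin n, fc (v j) (fun i => ((j i).val : ℤ)) ≠ 0 := by
    intro j
    have h1 := ((VTF g τ hτ n hn (fun i => ((j i).val : ℤ))).2.2
      (fun i => ((j i).val : ℤ))).1 (fun i => by rw [sub_self]; exact dvd_zero _)
    rw [hv]
    simp only
    rw [h1]
    exact Complex.exp_ne_zero _
  have hother : ∀ j k : Fin g → Fin n, j ≠ k → fc (v j) (fun i => ((k i).val : ℤ)) = 0 := by
    intro j k hjk
    have h1 : ∃ i, j i ≠ k i := by
      by_contra hcon
      push Not at hcon
      exact hjk (funext hcon)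
    obtain ⟨i, hi⟩ := h1
    have h2 := ((VTF g τ hτ n hn (fun i => ((j i).val : ℤ))).2.2
      (fun i => ((k i).val : ℤ))).2 ⟨i, by
        intro hdvd
        have h3 := (j i).isLt
        have h4 := (k i).isLt
        have h5 : (j i).val ≠ (k i).val := fun h => hi (Fin.ext h)
        have h6 : ((k i).val : ℤ) - ((j i).val : ℤ) = 0 := by
          apply Int.eq_zero_of_abs_lt_dvd hdvd
          rw [abs_lt]
          constructor <;> omega
        omega⟩
    rw [hv]
    exact h2
  refine ⟨fun j => fc F (fun i => ((j i).val : ℤ)) / fc (v j) (fun i => ((j i).val : ℤ)), ?_⟩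
  obtain ⟨c, hc⟩ : ∃ c : (Fin g → Fin n) → ℂ,
      c = fun j => fc F (fun i => ((j i).val : ℤ)) / fc (v j) (fun i => ((j i).val : ℤ)) :=
    ⟨_, rfl⟩
  have h1 : ∀ k : Fin g → Fin n,
      fc (fun x => F x + ∑ j, (-(c j)) * v j x) (fun i => ((k i).val : ℤ)) = 0 := by
    intro k
    rw [(hlin (fun j => -(c j)) (fun i => ((k i).val : ℤ)) Finset.univ).2]
    rw [Finset.sum_eq_single k]
    · rw [hc]
      simp only
      rw [neg_mul, div_mul_cancel₀ _ (hself k), add_neg_cancel]
    · intro j _ hjk
      rw [hother j k hjk, mul_zero]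
    · intro h
      exact absurd (Finset.mem_univ k) h
  have h2 := (DIM g τ n hn).1 _ (hlin (fun j => -(c j)) 0 Finset.univ).1 h1
  intro x
  have h3 := h2 x
  have h4 : ∑ j, -(c j) * v j x = -∑ j, c j * v j x := by
    rw [← Finset.sum_neg_distrib]
    exact Finset.sum_congr rfl (fun j _ => neg_mul _ _)
  rw [h4, ← sub_eq_add_neg, sub_eq_zero] at h3
  rw [h3, hc, hv]

end Pool.Agent.ZES.H88
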